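import Mathlib

namespace Pool.Agent.Results.MP_bcda77_nt.FirstOcc

/-- sum of the positive divisors -/
def sg (n : ℕ) : ℕ := ∑ d ∈ n.divisors, d

/-- the admissible multipliers: positive deficient `k` with `k * n` non-deficient -/
def Mult (n : ℕ) : Set ℕ := {k | 1 ≤ k ∧ sg k < 2 * k ∧ 2 * (k * n) ≤ sg (k * n)}

lemma sg_cop {a b : ℕ} (h : Nat.Coprime a b) : sg (a * b) = sg a * sg b := by
  unfold sg
  exact Nat.Coprime.sum_divisors_mul h

lemma sg_two (j : ℕ) : sg (2 ^ j) + 1 = 2 * 2 ^ j := by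
  unfold sg
  rw [Nat.sum_divisors_prime_pow Nat.prime_two]
  induction j with
  | zero => simp
  | succ j ih => rw [Finset.sum_range_succ, pow_succ]; omega

lemma sg_prime {p : ℕ} (hp : p.Prime) : sg p = p + 1 := by
  unfold sg
  rw [hp.sum_divisors]

lemma sg_ge {a b : ℕ} (ha : 0 < a) (hb : 0 < b) : a * sg b ≤ sg (a * b) := by
  unfold sg
  rw [Finset.mul_sum]
  have hi : Set.InjOn (fun d => a * d) (b.divisors : Set ℕ) := fun x _ y _ h =>
    Nat.eq_of_mul_eq_mul_left ha h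
  have := Finset.sum_image (f := fun d : ℕ => d) hi
  rw [← this]
  apply Finset.sum_le_sum_of_subset
  intro x hx
  obtain ⟨d, hd, rfl⟩ := Finset.mem_image.1 hx
  exact Nat.mem_divisors.2 ⟨Nat.mul_dvd_mul_left a (Nat.dvd_of_mem_divisors hd), by positivity⟩

lemma nd_mul {a b : ℕ} (hb : 0 < b) (h : a ∣ b) (ha : 2 * a ≤ sg a) : 2 * b ≤ sg b := by
  obtain ⟨c, rfl⟩ := h
  have h1 : 0 < a := Nat.pos_of_mul_pos_right hb |> fun h => by
    rcases Nat.eq_zero_or_pos a with h0 | h0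
    · simp [h0] at hb
    · exact h0
  have h2 : 0 < c := by
    rcases Nat.eq_zero_or_pos c with h0 | h0
    · simp [h0] at hb
    · exact h0
  have := sg_ge h2 h1
  rw [mul_comm a c]
  nlinarith

lemma three_mem {n : ℕ} (hn : 0 < n) (h : 2 ∣ n) : 3 ∈ Mult n := by
  refine ⟨by norm_num, by decide, nd_mul (a := 6) (by positivity) ?_ (by decide)⟩
  obtain ⟨c, rfl⟩ := h
  exact ⟨c, by ring⟩

theorem result (m : ℕ) (hm : 1 ≤ m) (p : ℕ) (hp : IsLeast {q : ℕ | q.Prime ∧ 2 ^ m < q} p) :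
    (∀ n, 2 ≤ n → n < p → ¬ IsLeast (Mult n) (2 ^ m)) ∧
    (IsLeast (Mult p) (2 ^ m) ↔ ¬ ∃ k, sg k + 1 = 2 * k ∧ p + 1 ≤ 2 * k ∧ k < 2 ^ m) := by
  obtain ⟨⟨hpp, hlt⟩, hmin⟩ := hp
  obtain ⟨j, rfl⟩ : ∃ j, m = j + 1 := ⟨m - 1, by omega⟩
  have hpos : 0 < 2 ^ j := by positivity
  have hcop : ∀ k, 1 ≤ k → k < p → Nat.Coprime k p := fun k h1 h2 =>
    (Nat.coprime_of_lt_prime (by omega) h2 hpp).symm
  constructor
  · rintro n hn hnp ⟨⟨h1, h2, h3⟩, hl⟩
    by_cases he : 2 ∣ n
    · have h := hl (three_mem (by omega) he)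
      have hj : j = 0 := by
        by_contra hj
        have : 2 ^ 2 ≤ 2 ^ (j + 1) := Nat.pow_le_pow_right (by norm_num) (by omega)
        omega
      subst hj
      have := hmin (show 3 ∈ {q : ℕ | q.Prime ∧ 2 ^ (0 + 1) < q} from ⟨by norm_num, by norm_num⟩)
      have hn2 : n = 2 := by omega
      subst hn2
      revert h3
      decide
    · obtain ⟨q, hq, hqn⟩ := Nat.exists_prime_and_dvd (show n ≠ 1 by omega)
      have hqle : q ≤ n := Nat.le_of_dvd (by omega) hqn
      have hq2 : ¬ 2 ∣ q := fun h => he (h.trans hqn)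
      have hqm : q ≤ 2 ^ (j + 1) := by
        by_contra hh
        have := hmin (show q ∈ {q : ℕ | q.Prime ∧ 2 ^ (j + 1) < q} from ⟨hq, not_le.1 hh⟩)
        omega
      have hs := sg_two j
      rw [pow_succ] at hqm
      have hqm' : q + 1 ≤ 2 * 2 ^ j := by omega
      have hc : Nat.Coprime (2 ^ j) q :=
        Nat.Coprime.pow_left j ((Nat.Prime.coprime_iff_not_dvd Nat.prime_two).2 hq2)
      have hnd : 2 * (2 ^ j * q) ≤ sg (2 ^ j * q) := by
        rw [sg_cop hc, sg_prime hq]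
        nlinarith
      have hmem : 2 ^ j ∈ Mult n :=
        ⟨hpos, by omega, nd_mul (by positivity) (Nat.mul_dvd_mul_left _ hqn) hnd⟩
      have := hl hmem
      rw [pow_succ] at this
      omega
  · constructor
    · rintro ⟨-, hl⟩ ⟨k, h1, h2, h3⟩
      have hk1 : 1 ≤ k := by omega
      have hmem : k ∈ Mult p := by
        refine ⟨hk1, by omega, ?_⟩
        rw [sg_cop (hcop k hk1 (by omega)), sg_prime hpp]
        nlinarith
      have := hl hmem
      omega
    · intro hno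
      have hs := sg_two (j + 1)
      have hpos' : 0 < 2 ^ (j + 1) := by positivity
      obtain ⟨q, hq, hq1, hq2⟩ := Nat.exists_prime_lt_and_le_two_mul (2 ^ (j + 1)) (by omega)
      have hpq := hmin (show q ∈ {q : ℕ | q.Prime ∧ 2 ^ (j + 1) < q} from ⟨hq, hq1⟩)
      have hodd : p ≠ 2 * 2 ^ (j + 1) := by
        intro h
        have := (Nat.prime_dvd_prime_iff_eq Nat.prime_two hpp).1 ⟨_, h⟩
        rw [pow_succ] at hlt
        omega
      have hp1 : p + 1 ≤ 2 * 2 ^ (j + 1) := by omega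
      refine ⟨⟨hpos', by omega, ?_⟩, ?_⟩
      · rw [sg_cop (hcop _ hpos' hlt), sg_prime hpp]
        nlinarith
      · rintro k ⟨h1, h2, h3⟩
        by_contra hh
        have hk : k < 2 ^ (j + 1) := not_le.1 hh
        rw [sg_cop (hcop k h1 (by omega)), sg_prime hpp] at h3
        apply hno
        have hkp : k < p := by omega
        have e1 : sg k + 1 = 2 * k := by
          by_contra hne
          have : sg k + 2 ≤ 2 * k := by omega
          nlinarith
        exact ⟨k, e1, by nlinarith, hk⟩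

end Pool.Agent.Results.MP_bcda77_nt.FirstOcc
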